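import Pool.Agent.Lib.MP_79a9b1_lc.Slp

set_option autoImplicit false

/-!
# Systems of elementary equations and their straight-line programs
-/

namespace Pool.Agent.Lib.MP_79a9b1_lc

/-- A system of equations `x i + x j = x k` (type `0`) and `x i * x j = x k` (other types),
together with `x 0 = 1`. -/
structure BSYS where
  nv : ℕ
  ne : ℕ
  ty : ℕ → ℕ
  i : ℕ → ℕ
  j : ℕ → ℕ
  k : ℕ → ℕ

namespace BSYS

variable (S : BSYS)

/-- The variables which occur are `x 0, …, x (nv - 1)`. -/
structure WF : Prop where
  pos : 0 < S.nv
  i : ∀ e < S.ne, S.i e < S.nv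
  j : ∀ e < S.ne, S.j e < S.nv
  k : ∀ e < S.ne, S.k e < S.nv

/-- The difference of the two sides of an equation. -/
noncomputable def res (x : ℕ → ℝ) (e : ℕ) : ℝ :=
  if S.ty e = 0 then x (S.i e) + x (S.j e) - x (S.k e) else x (S.i e) * x (S.j e) - x (S.k e)

/-- The system has a real solution. -/
def Solv : Prop := ∃ x : ℕ → ℝ, x 0 = 1 ∧ ∀ e < S.ne, S.res x e = 0

/-- The number of squarings. -/
def M : ℕ := 3 * S.nv + S.ne + 20

/-- The first line which belongs to an equation. -/
def E0 : ℕ := 6 * S.M + 2 + 2 * S.nv

/-- The line of `q i`. -/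
def q (i : ℕ) : ℕ := 6 * S.M + 2 + 2 * i

/-- The line of `p i`. -/
def p (i : ℕ) : ℕ := 6 * S.M + 3 + 2 * i

/-- The second factor of the term `r` of the equation `e`. -/
def fY (e r : ℕ) : ℕ :=
  if S.ty e = 0 then
    (if r = 0 then S.p (S.i e) else if r = 1 then S.p (S.j e) else if r = 2 then S.q (S.k e)
      else if r = 3 then S.q (S.i e) else if r = 4 then S.q (S.j e) else S.p (S.k e))
  else
    (if r = 0 then S.p (S.j e) else if r = 1 then S.q (S.j e) else if r = 2 then S.q (S.k e)
      else if r = 3 then S.q (S.j e) else if r = 4 then S.p (S.j e) else S.p (S.k e))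

/-- The first factor of the term `r` of the equation `e`. -/
def fX (e r : ℕ) : ℕ :=
  if r = 0 then S.p (S.i e) else if r = 1 then S.q (S.i e) else if r = 2 then 3 * S.M
    else if r = 3 then S.p (S.i e) else if r = 4 then S.q (S.i e) else 3 * S.M

/-- Operation of the position `o` of the equation `e`. -/
def eOp (e o : ℕ) : ℕ :=
  if o < 18 then (if o % 3 < 2 then 1 else if S.ty e = 0 then 1 else 3)
  else if o = 23 then 1 else if o = 26 then 1 else 2

/-- First argument of the position `o` of the equation `e`, whose first line is `c`. -/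
def eA (e o c : ℕ) : ℕ :=
  if o < 18 then
    (if o % 3 = 0 then S.fY e (o / 3) else if o % 3 = 1 then c + o - 1
      else if S.ty e = 0 then c + o - 2 else S.fX e (o / 3))
  else if o = 18 then c + 2 else if o = 19 then c + 18 else if o = 20 then c + 11
  else if o = 21 then c + 20 else if o = 22 then c + 21 else if o = 23 then c + 22
  else if o = 24 then c + 19 else if o = 25 then c + 19 else if o = 26 then c + 25
  else c + 21

/-- Second argument of the position `o` of the equation `e`, whose first line is `c`. -/
def eB (o c : ℕ) : ℕ :=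
  if o < 18 then c + o - 1
  else if o = 18 then c + 5 else if o = 19 then c + 8 else if o = 20 then c + 14
  else if o = 21 then c + 17 else if o = 22 then 6 * S.M else if o = 23 then 0
  else if o = 24 then c + 23 else if o = 25 then 6 * S.M else if o = 26 then 0
  else c + 26

/-- The operations of the straight-line program. -/
def sOp (l : ℕ) : ℕ :=
  if l = 0 then 0
  else if l ≤ 6 * S.M then (if l % 3 = 0 then 3 else 1)
  else if l = 6 * S.M + 1 then 2
  else if l < S.E0 then (if l = 6 * S.M + 3 then 2 else 0)
  else S.eOp ((l - S.E0) / 28) ((l - S.E0) % 28)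

/-- The first arguments of the straight-line program. -/
def sA (l : ℕ) : ℕ :=
  if l = 0 then 0
  else if l ≤ 6 * S.M then (if l % 3 = 0 then l - 3 else l - 1)
  else if l = 6 * S.M + 1 then 0
  else if l < S.E0 then (if l = 6 * S.M + 3 then 6 * S.M + 2 else 0)
  else S.eA ((l - S.E0) / 28) ((l - S.E0) % 28) (l - (l - S.E0) % 28)

/-- The second arguments of the straight-line program. -/
def sB (l : ℕ) : ℕ :=
  if l = 0 then 0
  else if l ≤ 6 * S.M then (if l % 3 = 0 then l - 1 else 0)
  else if l = 6 * S.M + 1 then 2
  else if l < S.E0 then (if l = 6 * S.M + 3 then 3 * S.M else 0)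
  else S.eB ((l - S.E0) % 28) (l - (l - S.E0) % 28)

/-- The straight-line program of a system. Lines `3 t` contain `c ^ (2 ^ t)` for `t ≤ 2 M`;
`δ` is the line `3 M` and `η` is the line `6 M`. Lines `q i`, `p i` contain numbers whose
difference is `δ x i`. Each equation has `28` lines. -/
def slp : SLP where
  n := S.E0 + 28 * S.ne
  op := S.sOp
  a := S.sA
  b := S.sB

end BSYS

end Pool.Agent.Lib.MP_79a9b1_lc
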