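import Mathlib

set_option autoImplicit false

/-!
# The Colin de Verdière invariant
-/

namespace Pool.Agent.Lib.MP_79a9b1_lc

/-- The real symmetric matrix `M` belongs to the set `𝓜(G)` in the definition of the Colin de
Verdière invariant: its off-diagonal entries are negative on edges and zero on nonedges, it has
exactly one negative eigenvalue (counted with multiplicity), and it has the strong Arnold
property. -/
structure CdV {V : Type} [Fintype V] [DecidableEq V] (G : SimpleGraph V) (M : Matrix V V ℝ) :
    Prop where
  herm : M.IsHermitian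
  neg : ∀ i j, G.Adj i j → M i j < 0
  zero : ∀ i j, i ≠ j → ¬ G.Adj i j → M i j = 0
  one : (Finset.univ.filter fun i => herm.eigenvalues i < 0).card = 1
  sap : ∀ X : Matrix V V ℝ, X.IsSymm → (∀ i, X i i = 0) → (∀ i j, G.Adj i j → X i j = 0) →
    M * X = 0 → X = 0

/-- The Colin de Verdière invariant: the largest corank of a matrix in `𝓜(G)`. -/
noncomputable def mu {V : Type} [Fintype V] [DecidableEq V] (G : SimpleGraph V) : ℕ :=
  sSup {k | ∃ M : Matrix V V ℝ, CdV G M ∧ k = Fintype.card V - M.rank}

end Pool.Agent.Lib.MP_79a9b1_lc
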