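import Mathlib

set_option autoImplicit false

/-!
# The existential theory of the reals
-/

namespace Pool.Agent.Lib.MP_79a9b1_lc

/-- A term is a variable, the constant `1`, or the sum, difference or product of two earlier
terms of the list. -/
inductive TNode
  | var
  | one
  | add (i j : ℕ)
  | sub (i j : ℕ)
  | mul (i j : ℕ)

/-- A formula is an equation `t = 0` or an inequality `t > 0` for a term `t`, or a negation,
conjunction or disjunction of earlier formulas of the list. -/
inductive FNode
  | eq0 (t : ℕ)
  | pos (t : ℕ)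
  | not (i : ℕ)
  | and (i j : ℕ)
  | or (i j : ℕ)

/-- A sentence `∃ x₁ … ∃ xₘ φ`, given by the list of the terms which occur in `φ` and the list of
its subformulas; `φ` is the last formula. -/
structure ETR where
  terms : List TNode
  forms : List FNode

namespace ETR

/-- The size of a sentence. -/
def size (I : ETR) : ℕ := I.terms.length + I.forms.length

/-- A list entry refers only to terms of the list and to earlier terms or formulas. -/
def WF (I : ETR) : Prop :=
  (∀ k i j : ℕ, (I.terms[k]? = some (.add i j) ∨ I.terms[k]? = some (.sub i j) ∨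
    I.terms[k]? = some (.mul i j)) → i < k ∧ j < k) ∧
  (∀ k i : ℕ, (I.forms[k]? = some (.eq0 i) ∨ I.forms[k]? = some (.pos i)) →
    i < I.terms.length) ∧
  (∀ k i : ℕ, I.forms[k]? = some (.not i) → i < k) ∧
  (∀ k i j : ℕ, (I.forms[k]? = some (.and i j) ∨ I.forms[k]? = some (.or i j)) →
    i < k ∧ j < k) ∧
  I.forms ≠ []

/-- The numbers `v k` are the values of the terms for some values of the variables. -/
def TVal (I : ETR) (v : ℕ → ℝ) : Prop :=
  ∀ k : ℕ, (I.terms[k]? = some .one → v k = 1) ∧
    ∀ i j : ℕ, (I.terms[k]? = some (.add i j) → v k = v i + v j) ∧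
      (I.terms[k]? = some (.sub i j) → v k = v i - v j) ∧
      (I.terms[k]? = some (.mul i j) → v k = v i * v j)

/-- The propositions `s k` are the truth values of the formulas. -/
def FVal (I : ETR) (v : ℕ → ℝ) (s : ℕ → Prop) : Prop :=
  ∀ k i : ℕ, (I.forms[k]? = some (.eq0 i) → (s k ↔ v i = 0)) ∧
    (I.forms[k]? = some (.pos i) → (s k ↔ 0 < v i)) ∧
    (I.forms[k]? = some (.not i) → (s k ↔ ¬ s i)) ∧
    ∀ j : ℕ, (I.forms[k]? = some (.and i j) → (s k ↔ s i ∧ s j)) ∧
      (I.forms[k]? = some (.or i j) → (s k ↔ s i ∨ s j))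

/-- The sentence is true. -/
def Holds (I : ETR) : Prop :=
  ∃ (v : ℕ → ℝ) (s : ℕ → Prop), I.TVal v ∧ I.FVal v s ∧ s (I.forms.length - 1)

end ETR

/-- Code of a term: `0` variable, `1` one, `2` sum, `3` difference, `4` product. -/
def TNode.code : TNode → ℕ
  | var => 0 | one => 1 | add _ _ => 2 | sub _ _ => 3 | mul _ _ => 4

/-- First argument of a term. -/
def TNode.fst : TNode → ℕ
  | add i _ => i | sub i _ => i | mul i _ => i | _ => 0

/-- Second argument of a term. -/
def TNode.snd : TNode → ℕ
  | add _ j => j | sub _ j => j | mul _ j => j | _ => 0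

/-- Code of a formula: `0` equation, `1` inequality, `2` negation, `3` conjunction,
`4` disjunction. -/
def FNode.code : FNode → ℕ
  | eq0 _ => 0 | pos _ => 1 | not _ => 2 | and _ _ => 3 | or _ _ => 4

/-- First argument of a formula. -/
def FNode.fst : FNode → ℕ
  | eq0 i => i | pos i => i | not i => i | and i _ => i | or i _ => i

/-- Second argument of a formula. -/
def FNode.snd : FNode → ℕ
  | and _ j => j | or _ j => j | _ => 0

end Pool.Agent.Lib.MP_79a9b1_lc
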