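import Pool.Agent.Lib.MP_79a9b1_lc.Etr
import Pool.Agent.Lib.MP_79a9b1_lc.Bsys

set_option autoImplicit false

/-!
# From sentences to systems of elementary equations
-/

namespace Pool.Agent.Lib.MP_79a9b1_lc

/-- A sentence as numbers: `a` terms with codes `tt` and arguments `ta`, `tb`; `b` formulas with
codes `ft` and arguments `fa`, `fb`. -/
structure Raw where
  a : ℕ
  b : ℕ
  tt : ℕ → ℕ
  ta : ℕ → ℕ
  tb : ℕ → ℕ
  ft : ℕ → ℕ
  fa : ℕ → ℕ
  fb : ℕ → ℕ

/-- The numbers of a sentence. -/
def ETR.raw (I : ETR) : Raw where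
  a := I.terms.length
  b := I.forms.length
  tt k := (I.terms[k]?.map TNode.code).getD 0
  ta k := (I.terms[k]?.map TNode.fst).getD 0
  tb k := (I.terms[k]?.map TNode.snd).getD 0
  ft k := (I.forms[k]?.map FNode.code).getD 0
  fa k := (I.forms[k]?.map FNode.fst).getD 0
  fb k := (I.forms[k]?.map FNode.snd).getD 0

namespace Raw

variable (R : Raw)

/-- All references are to earlier entries. -/
structure WF : Prop where
  t : ∀ k < R.a, 2 ≤ R.tt k → R.ta k < k ∧ R.tb k < k
  tt : ∀ k < R.a, R.tt k ≤ 4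
  ft : ∀ k < R.b, R.ft k ≤ 4
  f : ∀ k < R.b, R.ft k ≤ 1 → R.fa k < R.a
  g : ∀ k < R.b, 2 ≤ R.ft k → R.fa k < k
  h : ∀ k < R.b, 3 ≤ R.ft k → R.fb k < k
  pos : 0 < R.b

/-- The sentence is true. -/
def Holds : Prop :=
  ∃ (v : ℕ → ℝ) (s : ℕ → Prop),
    (∀ k < R.a, (R.tt k = 1 → v k = 1) ∧ (R.tt k = 2 → v k = v (R.ta k) + v (R.tb k)) ∧
      (R.tt k = 3 → v k = v (R.ta k) - v (R.tb k)) ∧
      (R.tt k = 4 → v k = v (R.ta k) * v (R.tb k))) ∧
    (∀ k < R.b, (R.ft k = 0 → (s k ↔ v (R.fa k) = 0)) ∧ (R.ft k = 1 → (s k ↔ 0 < v (R.fa k))) ∧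
      (R.ft k = 2 → (s k ↔ ¬ s (R.fa k))) ∧ (R.ft k = 3 → (s k ↔ s (R.fa k) ∧ s (R.fb k))) ∧
      (R.ft k = 4 → (s k ↔ s (R.fa k) ∨ s (R.fb k)))) ∧
    s (R.b - 1)

/-- Index of the first variable of the formula `k`. -/
def V (k : ℕ) : ℕ := 1 + R.a + 8 * k

/-- Type of the equation `r` of the formula `k`. -/
def fTy (k r : ℕ) : ℕ :=
  if R.ft k = 0 then (if r = 2 then 0 else 1)
  else if R.ft k = 1 then (if r = 2 then 0 else if r = 4 then 0 else 1)
  else if R.ft k = 2 then 1
  else (if r = 2 then 0 else 1)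

/-- First variable of the equation `r` of the formula `k`. -/
def fI (k r : ℕ) : ℕ :=
  if R.ft k = 0 then
    (if r = 0 then 0 else if r = 1 then 1 + R.fa k else if r = 2 then R.V k + 1 else 0)
  else if R.ft k = 1 then
    (if r = 0 then R.V k + 2 else if r = 1 then 1 + R.fa k else if r = 2 then R.V k
      else if r = 3 then R.V k + 3 else if r = 4 then 1 + R.fa k else 0)
  else if R.ft k = 2 then 0
  else if R.ft k = 3 then
    (if r = 0 then R.V (R.fa k) else if r = 1 then R.V (R.fb k) else if r = 2 then R.V k + 4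
      else if r = 3 then R.V (R.fa k) + 1 else 0)
  else
    (if r = 0 then R.V (R.fa k) + 1 else if r = 1 then R.V (R.fb k) + 1
      else if r = 2 then R.V k + 4 else if r = 3 then R.V (R.fa k) else 0)

/-- Second variable of the equation `r` of the formula `k`. -/
def fJ (k r : ℕ) : ℕ :=
  if R.ft k = 0 then
    (if r = 0 then 1 + R.fa k else if r = 1 then R.V k + 2 else 0)
  else if R.ft k = 1 then
    (if r = 0 then R.V k + 2 else if r = 1 then R.V k + 4 else if r = 2 then 0
      else if r = 3 then R.V k + 3 else if r = 4 then R.V k + 6 else 0)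
  else if R.ft k = 2 then
    (if r = 0 then R.V (R.fa k) + 1 else if r = 1 then R.V (R.fa k) else 0)
  else if R.ft k = 3 then
    (if r = 0 then R.V (R.fa k) else if r = 1 then R.V (R.fb k) else if r = 2 then R.V k + 5
      else if r = 3 then R.V (R.fb k) + 1 else 0)
  else
    (if r = 0 then R.V (R.fa k) + 1 else if r = 1 then R.V (R.fb k) + 1
      else if r = 2 then R.V k + 5 else if r = 3 then R.V (R.fb k) else 0)

/-- Third variable of the equation `r` of the formula `k`. -/
def fK (k r : ℕ) : ℕ :=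
  if R.ft k = 0 then
    (if r = 0 then R.V k else if r = 1 then R.V k + 4 else if r = 2 then R.V k + 4 else 0)
  else if R.ft k = 1 then
    (if r = 0 then R.V k + 4 else if r = 1 then R.V k + 5 else if r = 2 then R.V k + 5
      else if r = 3 then R.V k + 6 else if r = 4 then R.V k + 1 else 0)
  else if R.ft k = 2 then
    (if r = 0 then R.V k else if r = 1 then R.V k + 1 else 0)
  else if R.ft k = 3 then
    (if r = 0 then R.V k + 4 else if r = 1 then R.V k + 5 else if r = 2 then R.V k
      else if r = 3 then R.V k + 1 else 0)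
  else
    (if r = 0 then R.V k + 4 else if r = 1 then R.V k + 5 else if r = 2 then R.V k + 1
      else if r = 3 then R.V k else 0)

/-- Types of the equations. -/
def eTy (e : ℕ) : ℕ :=
  if e < R.a then (if R.tt e = 2 then 0 else if R.tt e = 3 then 0 else 1)
  else if e < R.a + 6 * R.b then R.fTy ((e - R.a) / 6) ((e - R.a) % 6)
  else 0

/-- First variables of the equations. -/
def eI (e : ℕ) : ℕ :=
  if e < R.a then
    (if R.tt e = 2 then 1 + R.ta e else if R.tt e = 3 then 1 + e
      else if R.tt e = 4 then 1 + R.ta e else 0)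
  else if e < R.a + 6 * R.b then R.fI ((e - R.a) / 6) ((e - R.a) % 6)
  else R.V (R.b - 1)

/-- Second variables of the equations. -/
def eJ (e : ℕ) : ℕ :=
  if e < R.a then
    (if R.tt e = 2 then 1 + R.tb e else if R.tt e = 3 then 1 + R.tb e
      else if R.tt e = 4 then 1 + R.tb e else 0)
  else if e < R.a + 6 * R.b then R.fJ ((e - R.a) / 6) ((e - R.a) % 6)
  else R.V (R.b - 1)

/-- Third variables of the equations. -/
def eK (e : ℕ) : ℕ :=
  if e < R.a then
    (if R.tt e = 2 then 1 + e else if R.tt e = 3 then 1 + R.ta e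
      else if R.tt e = 4 then 1 + e else if R.tt e = 1 then 1 + e else 0)
  else if e < R.a + 6 * R.b then R.fK ((e - R.a) / 6) ((e - R.a) % 6)
  else R.V (R.b - 1)

/-- The system of a sentence. The variable `1 + k` is the value of the term `k`. The formula `k`
has eight variables: the first is zero only if the formula is true, the second is zero only
if the formula is false. -/
def bsys : BSYS where
  nv := 1 + R.a + 8 * R.b
  ne := R.a + 6 * R.b + 1
  ty := R.eTy
  i := R.eI
  j := R.eJ
  k := R.eK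

end Raw

end Pool.Agent.Lib.MP_79a9b1_lc
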