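import Pool.Agent.Lib.MP_79a9b1_lc.Net

set_option autoImplicit false

/-!
# Straight-line programs with values in `(0, 1)` and their networks
-/

namespace Pool.Agent.Lib.MP_79a9b1_lc

/-- A straight-line program. The operation `op k` is `0` (input), `1` (`1 - x`), `2` (`x + y`) or
`3` (`x * y`); the arguments are the values of the lines `a k` and `b k`. -/
structure SLP where
  n : ℕ
  op : ℕ → ℕ
  a : ℕ → ℕ
  b : ℕ → ℕ

namespace SLP

variable (P : SLP)

/-- The line `k` is a sum or a product. -/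
def bin (k : ℕ) : Prop := P.op k = 2 ∨ P.op k = 3

instance (k : ℕ) : Decidable (P.bin k) := inferInstanceAs (Decidable (_ ∨ _))

/-- Arguments are earlier lines, and the two arguments of a sum or product are different lines. -/
structure WF : Prop where
  one : ∀ k < P.n, P.op k = 1 → P.a k < k
  bin : ∀ k < P.n, P.bin k → P.a k < k ∧ P.b k < k ∧ P.a k ≠ P.b k

/-- All values lie strictly between `0` and `1`. -/
def Sat : Prop :=
  ∃ v : ℕ → ℝ, ∀ k < P.n, 0 < v k ∧ v k < 1 ∧ (P.op k = 1 → v k = 1 - v (P.a k)) ∧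
    (P.op k = 2 → v k = v (P.a k) + v (P.b k)) ∧ (P.op k = 3 → v k = v (P.a k) * v (P.b k))

end SLP

/-- Sorts of axes. -/
inductive Sg | al | b1 | b2 | g1 | g2 | om | f1 | f2 | f3 | f4 | f5 | f6
  deriving DecidableEq

instance : Fintype Sg :=
  ⟨{.al, .b1, .b2, .g1, .g2, .om, .f1, .f2, .f3, .f4, .f5, .f6}, by intro x; cases x <;> decide⟩

/-- Sorts of rows. -/
inductive Rs | s | r1 | r2 | w | u
  deriving DecidableEq

instance : Fintype Rs := ⟨{.s, .r1, .r2, .w, .u}, by intro x; cases x <;> decide⟩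

/-- Index of a sort of axes. -/
def Sg.idx : Sg → ℕ
  | .al => 0 | .b1 => 1 | .b2 => 2 | .g1 => 3 | .g2 => 4 | .om => 5
  | .f1 => 6 | .f2 => 7 | .f3 => 8 | .f4 => 9 | .f5 => 10 | .f6 => 11

/-- Index of a sort of rows. -/
def Rs.idx : Rs → ℕ
  | .s => 0 | .r1 => 1 | .r2 => 2 | .w => 3 | .u => 4

/-- Types of incidences of rows and axes. -/
inductive Ty | no | pa | fu
  deriving DecidableEq

/-- The axes; `inr false` and `inr true` are the reference axes (main, spacer). -/
abbrev Ax (n : ℕ) : Type := (Fin n × Sg) ⊕ Bool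

/-- The rows; the rows `inr (c, _)` are the calibrators. -/
abbrev Rw (n : ℕ) : Type := (Fin n × Rs) ⊕ (Option (Fin n × Sg) × Bool)

namespace SLP

variable (P : SLP)

/-- Type of the incidence of the row of sort `τ` of line `m` and the axis of sort `σ` of
line `k`. -/
def tyM (τ : Rs) (m : ℕ) (σ : Sg) (k : ℕ) : Ty :=
  match τ, σ with
  | .s, .al => if m = k then .pa else
      if (P.op k = 1 ∧ P.a k = m) ∨ (P.op m = 1 ∧ P.a m = k) then .fu else .no
  | .s, .b1 => if P.bin k ∧ P.a k = m then .fu else .no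
  | .s, .b2 => if P.bin k ∧ P.b k = m then .fu else .no
  | .s, .om => if P.bin k ∧ m = k then .fu else .no
  | .s, .f1 => if (P.op k = 1 ∧ (m = k ∨ P.a k = m)) ∨ (P.bin k ∧ P.a k = m) then .fu else .no
  | .s, .f2 => if P.bin k ∧ P.b k = m then .fu else .no
  | .s, .f6 => if P.bin k ∧ m = k then .fu else .no
  | .s, _ => .no
  | .r1, .al => if P.bin m ∧ P.a m = k then .fu else .no
  | .r1, .b1 => if P.bin m ∧ m = k then .pa else .no
  | .r1, .g1 => if P.bin m ∧ m = k then .fu else .no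
  | .r1, .f1 => if P.bin m ∧ m = k then .fu else .no
  | .r1, .f3 => if P.bin m ∧ m = k then .fu else .no
  | .r1, _ => .no
  | .r2, .al => if P.bin m ∧ P.b m = k then .fu else .no
  | .r2, .b2 => if P.bin m ∧ m = k then .pa else .no
  | .r2, .g1 => if P.op m = 3 ∧ m = k then .fu else .no
  | .r2, .g2 => if P.op m = 2 ∧ m = k then .fu else .no
  | .r2, .f2 => if P.bin m ∧ m = k then .fu else .no
  | .r2, .f4 => if P.bin m ∧ m = k then .fu else .no
  | .r2, _ => .no
  | .w, .b1 => if P.bin m ∧ m = k then .fu else .no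
  | .w, .b2 => if P.op m = 2 ∧ m = k then .fu else .no
  | .w, .g1 => if P.bin m ∧ m = k then .pa else .no
  | .w, .g2 => if P.op m = 2 ∧ m = k then .pa else .no
  | .w, .om => if P.bin m ∧ m = k then .fu else .no
  | .w, .f3 => if P.bin m ∧ m = k then .fu else .no
  | .w, .f4 => if P.op m = 2 ∧ m = k then .fu else .no
  | .w, .f5 => if P.bin m ∧ m = k then .fu else .no
  | .w, _ => .no
  | .u, .al => if P.bin m ∧ m = k then .fu else .no
  | .u, .b2 => if P.op m = 3 ∧ m = k then .fu else .no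
  | .u, .g1 => if P.op m = 2 ∧ m = k then .fu else if P.op m = 3 ∧ m = k then .pa else .no
  | .u, .g2 => if P.op m = 2 ∧ m = k then .fu else .no
  | .u, .om => if P.bin m ∧ m = k then .pa else .no
  | .u, .f4 => if P.op m = 3 ∧ m = k then .fu else .no
  | .u, .f5 => if P.bin m ∧ m = k then .fu else .no
  | .u, .f6 => if P.bin m ∧ m = k then .fu else .no
  | .u, _ => .no

/-- The sorts of main axes. -/
def isMain : Sg → Bool
  | .al => true | .b1 => true | .b2 => true | .g1 => true | .g2 => true | .om => true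
  | _ => false

/-- Type of the incidence of a row and an axis. -/
def ty : Rw P.n → Ax P.n → Ty
  | .inl (m, τ), .inl (k, σ) => P.tyM τ m σ k
  | .inl _, .inr _ => .no
  | .inr (some (k, σ), _), .inl (l, ρ) => if (k, σ) = (l, ρ) then .fu else .no
  | .inr (some (_, σ), _), .inr t => if t = isMain σ then .fu else .no
  | .inr (none, _), .inl _ => .no
  | .inr (none, _), .inr _ => .fu

/-- The edges, up to symmetry, between rows which are not calibrators. -/
def edM (τ : Rs) (m : ℕ) (ρ : Rs) (k : ℕ) : Prop :=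
  match τ, ρ with
  | .s, .s => P.op k = 1 ∧ P.a k = m
  | .s, .r1 => P.bin k ∧ P.a k = m
  | .s, .r2 => P.bin k ∧ P.b k = m
  | .r1, .w => P.bin k ∧ m = k
  | .r2, .w => P.op k = 2 ∧ m = k
  | .r2, .u => P.op k = 3 ∧ m = k
  | .w, .u => P.bin k ∧ m = k
  | .u, .s => P.bin k ∧ m = k
  | _, _ => False

instance (τ : Rs) (m : ℕ) (ρ : Rs) (k : ℕ) : Decidable (P.edM τ m ρ k) := by
  unfold edM; split <;> infer_instance

/-- The edges. -/
def ed : Rw P.n → Rw P.n → Prop
  | .inl (m, τ), .inl (k, ρ) => ¬ (m = k ∧ τ = ρ) ∧ (P.edM τ m ρ k ∨ P.edM ρ k τ m)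
  | .inr (c, t), .inr (d, r) => c = d ∧ t ≠ r
  | _, _ => False

instance (x y : Rw P.n) : Decidable (P.ed x y) := by
  rcases x with ⟨m, τ⟩ | ⟨c, t⟩ <;> rcases y with ⟨k, ρ⟩ | ⟨d, r⟩ <;> unfold ed <;> infer_instance

/-- The network of a straight-line program. -/
def net : Net (Ax P.n) (Rw P.n) where
  full x a := P.ty x a = .fu
  part x a := P.ty x a = .pa
  edge x y := P.ed x y
  disj x a h := by simp [h]
  symm x y h := by
    rcases x with ⟨m, τ⟩ | ⟨c, t⟩ <;> rcases y with ⟨k, ρ⟩ | ⟨d, r⟩ <;> simp only [ed] at h ⊢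
    · exact ⟨fun h' => h.1 ⟨h'.1.symm, h'.2.symm⟩, h.2.symm⟩
    · exact ⟨h.1.symm, h.2.symm⟩
  irrefl x h := by
    rcases x with ⟨m, τ⟩ | ⟨c, t⟩ <;> simp [ed] at h

theorem card_Ax (n : ℕ) : Fintype.card (Ax n) = 12 * n + 2 := by
  have : Fintype.card Sg = 12 := by decide
  simp [Fintype.card_sum, Fintype.card_prod, this]
  ring

theorem card_Rw (n : ℕ) : Fintype.card (Rw n) = 29 * n + 2 := by
  have h1 : Fintype.card Sg = 12 := by decide
  have h2 : Fintype.card Rs = 5 := by decide
  simp [Fintype.card_sum, Fintype.card_prod, Fintype.card_option, h1, h2]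
  ring

end SLP

end Pool.Agent.Lib.MP_79a9b1_lc
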