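import Pool.Agent.Lib.MP_79a9b1_lc.Defs
import Pool.Agent.Lib.MP_79a9b1_lc.Etr
import Pool.Agent.Lib.MP_711ea9_lc.Lang

set_option autoImplicit false

/-!
# Hardness for the existential theory of the reals
-/

namespace Pool.Agent.Lib.MP_79a9b1_lc

open Pool.Agent.Lib.MP_711ea9_lc (Cmd Store)

/-- The memory which contains a sentence: variables 0 and 1 hold the numbers of terms and of
formulas; arrays 0, 1, 2 hold the kinds and the arguments of the terms, arrays 3, 4, 5 those
of the formulas. Everything else is zero. -/
def ETR.input (I : ETR) : Store where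
  var x := if x = 0 then I.terms.length else if x = 1 then I.forms.length else 0
  arr c k :=
    if c = 0 then (I.terms[k]?.map TNode.code).getD 0
    else if c = 1 then (I.terms[k]?.map TNode.fst).getD 0
    else if c = 2 then (I.terms[k]?.map TNode.snd).getD 0
    else if c = 3 then (I.forms[k]?.map FNode.code).getD 0
    else if c = 4 then (I.forms[k]?.map FNode.fst).getD 0
    else if c = 5 then (I.forms[k]?.map FNode.snd).getD 0
    else 0

/-- The memory contains the graph `G` on `{0, …, N - 1}` and the number `k`: variable 0 holds `N`,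
variable 1 holds `k`, and array 0 holds the adjacency matrix, row by row. -/
def Outputs (σ : Store) (N k : ℕ) (G : SimpleGraph (Fin N)) : Prop :=
  σ.var 0 = N ∧ σ.var 1 = k ∧ ∀ u v : Fin N,
    (G.Adj u v → σ.arr 0 (u * N + v) = 1) ∧ (¬ G.Adj u v → σ.arr 0 (u * N + v) = 0)

/-- The decision problem `L`, whose inputs are a graph and a natural number, is hard for the class
`∃ℝ`: one program translates, in polynomial time, every sentence `∃ x₁ … ∃ xₘ φ` into a graph
and a number, so that the sentence is true in the real numbers if and only if `L` holds. -/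
def ERHard (L : ∀ N : ℕ, SimpleGraph (Fin N) → ℕ → Prop) : Prop :=
  ∃ (p : Cmd) (c : ℕ), ∀ I : ETR, I.WF →
    p.cost I.input ≤ c * (I.size + 1) ^ c ∧
    ∃ (N k : ℕ) (G : SimpleGraph (Fin N)), N ≤ c * (I.size + 1) ^ c ∧
      Outputs (p.exec I.input) N k G ∧ (I.Holds ↔ L N G k)

end Pool.Agent.Lib.MP_79a9b1_lc
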