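import Pool.Agent.Lib.MP_79a9b1_lc.ProgOut
import Pool.Agent.Lib.MP_79a9b1_lc.Mg.G001

set_option autoImplicit false

/-!
# Hardness of the Colin de Verdière invariant
-/

namespace Pool.Agent.Lib.MP_79a9b1_lc

/-- The main theorem. -/
theorem mu_hard : ERHard fun _ G k => k ≤ mu G := by
  obtain ⟨c, hc⟩ := prog_cost
  refine ⟨prog, max c 20000, fun I hI => ⟨?_, ?_⟩⟩
  · refine (hc I hI).trans ?_
    exact Nat.mul_le_mul (le_max_left _ _) (Nat.pow_le_pow_right (by omega) (le_max_left _ _))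
  · obtain ⟨N, k, G, h1, h2, h3⟩ := prog_out I hI
    refine ⟨N, k, G, h1.trans ?_, h2, h3⟩
    refine Nat.mul_le_mul (le_max_right _ _) ?_
    exact Nat.le_self_pow (by have := le_max_right c 20000; omega) _

end Pool.Agent.Lib.MP_79a9b1_lc
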