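import Pool.Agent.Lib.MP_79a9b1_lc.Defs

set_option autoImplicit false

/-!
# Networks and their graphs

A network has axes `A` and rows `X`; each row has full and proper axes. Its graph has a frame
(one vertex `e0` and one vertex `e a` for every axis), a pure vertex `p a` for every axis and a
vertex `r x` for every row.
-/

namespace Pool.Agent.Lib.MP_79a9b1_lc

/-- A network. -/
structure Net (A X : Type) where
  full : X → A → Prop
  part : X → A → Prop
  edge : X → X → Prop
  disj : ∀ x a, full x a → ¬ part x a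
  symm : ∀ x y, edge x y → edge y x
  irrefl : ∀ x, ¬ edge x x

/-- Vertices of the graph of a network. -/
inductive NV (A X : Type) where
  | e0 : NV A X
  | e (a : A) : NV A X
  | p (a : A) : NV A X
  | r (x : X) : NV A X
  deriving DecidableEq

namespace NV

variable {A X : Type}

/-- The vertices as a sum. -/
def toSum : NV A X ≃ (Unit ⊕ A) ⊕ (A ⊕ X) where
  toFun
    | e0 => Sum.inl (Sum.inl ())
    | e a => Sum.inl (Sum.inr a)
    | p a => Sum.inr (Sum.inl a)
    | r x => Sum.inr (Sum.inr x)
  invFun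
    | Sum.inl (Sum.inl _) => e0
    | Sum.inl (Sum.inr a) => e a
    | Sum.inr (Sum.inl a) => p a
    | Sum.inr (Sum.inr x) => r x
  left_inv v := by cases v <;> rfl
  right_inv v := by rcases v with (_ | _) | (_ | _) <;> rfl

instance [Fintype A] [Fintype X] : Fintype (NV A X) := Fintype.ofEquiv _ toSum.symm

theorem card [Fintype A] [Fintype X] :
    Fintype.card (NV A X) = 1 + 2 * Fintype.card A + Fintype.card X := by
  rw [Fintype.card_congr toSum]
  simp [Fintype.card_sum]
  ring

end NV

namespace Net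

variable {A X : Type} (N : Net A X)

/-- The axis `a` belongs to the support of the row `x`. -/
def sup (x : X) (a : A) : Prop := N.full x a ∨ N.part x a

/-- The nonadjacent pairs of the graph of a network. -/
def nadj : NV A X → NV A X → Prop
  | .e0, .e _ => True
  | .e _, .e0 => True
  | .e _, .e _ => True
  | .e a, .p b => a ≠ b
  | .p a, .e b => a ≠ b
  | .e a, .r x => ¬ N.sup x a
  | .r x, .e a => ¬ N.sup x a
  | .p a, .r x => N.full x a
  | .r x, .p a => N.full x a
  | .r x, .r y => N.edge x y
  | _, _ => False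

theorem nadj_symm {u v : NV A X} (h : N.nadj u v) : N.nadj v u := by
  cases u <;> cases v <;> simp_all [nadj]
  · exact fun h' => h h'.symm
  · exact fun h' => h h'.symm
  · exact N.symm _ _ h

/-- The graph of a network. -/
def graph : SimpleGraph (NV A X) where
  Adj u v := u ≠ v ∧ ¬ N.nadj u v
  symm := ⟨fun _ _ h => ⟨h.1.symm, fun h' => h.2 (N.nadj_symm h')⟩⟩
  loopless := ⟨fun _ h => h.1 rfl⟩

/-- A solution of a network: positive weights of the axes and coordinates of the rows. -/
structure Sol [Fintype A] (Y : A → ℝ) (ξ : X → A → ℝ) : Prop where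
  pos : ∀ a, 0 < Y a
  full : ∀ x a, N.full x a → ξ x a = 1
  part : ∀ x a, N.part x a → 0 < ξ x a ∧ ξ x a < 1
  none : ∀ x a, ¬ N.sup x a → ξ x a = 0
  edge : ∀ x y, N.edge x y → ∑ a, Y a * ξ x a * ξ y a = 1
  nonedge : ∀ x y, x ≠ y → ¬ N.edge x y → ∑ a, Y a * ξ x a * ξ y a < 1

/-- Regularity of a solution (this is the strong Arnold property). -/
def Reg [Fintype A] [Fintype X] (Y : A → ℝ) (ξ : X → A → ℝ) : Prop :=
  ∀ (Z : X → X → ℝ) (W : A → X → ℝ), (∀ x y, Z x y = Z y x) →
    (∀ x y, ¬ N.edge x y → Z x y = 0) → (∀ a x, ¬ N.full x a → W a x = 0) →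
    (∀ x, ∑ y, Z x y + ∑ a, W a x = 0) →
    (∀ x a, N.sup x a → Y a * ∑ y, ξ y a * Z x y + W a x = 0) →
    (∀ a, ∑ x, W a x = 0) → (∀ x y, Z x y = 0) ∧ (∀ a x, W a x = 0)

end Net

end Pool.Agent.Lib.MP_79a9b1_lc
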