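import Pool.Agent.Lib.MP_79a9b1_lc.Mg.G001

set_option autoImplicit false

/-!
# A solution of the system gives values of the straight-line program
-/

namespace Pool.Agent.Lib.MP_79a9b1_lc

namespace BSYS

variable (S : BSYS)

/-- Values of the lines before the equations. -/
noncomputable def satOfSolvB (c δ : ℝ) (x : ℕ → ℝ) (l : ℕ) : ℝ :=
  if l ≤ 6 * S.M then (if l % 3 = 1 then 1 - c ^ (2 ^ (l / 3)) else c ^ (2 ^ (l / 3)))
  else if l = 6 * S.M + 1 then c + c
  else if (l - (6 * S.M + 2)) % 2 = 0 then 1 / 32 - δ * x ((l - (6 * S.M + 2)) / 2) / 2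
  else 1 / 32 + δ * x ((l - (6 * S.M + 2)) / 2) / 2

/-- The second factor. -/
noncomputable def satOfSolvY (c δ : ℝ) (x : ℕ → ℝ) (e r : ℕ) : ℝ := S.satOfSolvB c δ x (S.fY e r)

/-- The term. -/
noncomputable def satOfSolvT (c δ : ℝ) (x : ℕ → ℝ) (e r : ℕ) : ℝ :=
  if S.ty e = 0 then S.satOfSolvY c δ x e r
  else S.satOfSolvB c δ x (S.fX e r) * S.satOfSolvY c δ x e r

/-- Values of the lines of an equation. -/
noncomputable def satOfSolvE (c δ η : ℝ) (x : ℕ → ℝ) (e o : ℕ) : ℝ :=
  let T := S.satOfSolvT c δ x e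
  if o < 18 then (if o % 3 = 0 then 1 - S.satOfSolvY c δ x e (o / 3)
    else if o % 3 = 1 then S.satOfSolvY c δ x e (o / 3) else T (o / 3))
  else if o = 18 then T 0 + T 1 else if o = 19 then T 0 + T 1 + T 2
  else if o = 20 then T 3 + T 4 else if o = 21 then T 3 + T 4 + T 5
  else if o = 22 then T 3 + T 4 + T 5 + η else if o = 23 then 1 - (T 3 + T 4 + T 5 + η)
  else if o = 24 then T 0 + T 1 + T 2 + (1 - (T 3 + T 4 + T 5 + η))
  else if o = 25 then T 0 + T 1 + T 2 + η else if o = 26 then 1 - (T 0 + T 1 + T 2 + η)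
  else T 3 + T 4 + T 5 + (1 - (T 0 + T 1 + T 2 + η))

/-- All values. -/
noncomputable def satOfSolvV (c δ η : ℝ) (x : ℕ → ℝ) (l : ℕ) : ℝ :=
  if l < S.E0 then S.satOfSolvB c δ x l
  else S.satOfSolvE c δ η x ((l - S.E0) / 28) ((l - S.E0) % 28)

theorem satOfSolvV_eq (c δ η : ℝ) (x : ℕ → ℝ) (e o : ℕ) (ho : o < 28) :
    S.satOfSolvV c δ η x (S.E0 + 28 * e + o) = S.satOfSolvE c δ η x e o := by
  unfold satOfSolvV
  rw [if_neg (by omega)]
  have h1 : S.E0 + 28 * e + o - S.E0 = 28 * e + o := by omega
  have h2 : (28 * e + o) / 28 = e := by omega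
  have h3 : (28 * e + o) % 28 = o := by omega
  rw [h1, h2, h3]

theorem satOfSolvV_base (c δ η : ℝ) (x : ℕ → ℝ) (l : ℕ) (hl : l < S.E0) :
    S.satOfSolvV c δ η x l = S.satOfSolvB c δ x l := by
  unfold satOfSolvV
  rw [if_pos hl]

theorem satOfSolvB_three (c δ : ℝ) (x : ℕ → ℝ) (t : ℕ) (ht : t ≤ 2 * S.M) :
    S.satOfSolvB c δ x (3 * t) = c ^ (2 ^ t) := by
  unfold satOfSolvB
  have h1 : 3 * t / 3 = t := by omega
  rw [if_pos (by omega), if_neg (by omega), h1]

theorem satOfSolvB_q (c δ : ℝ) (x : ℕ → ℝ) (i : ℕ) :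
    S.satOfSolvB c δ x (S.q i) = 1 / 32 - δ * x i / 2 := by
  unfold satOfSolvB q
  rw [if_neg (by omega), if_neg (by omega), if_pos (by omega)]
  have : (6 * S.M + 2 + 2 * i - (6 * S.M + 2)) / 2 = i := by omega
  rw [this]

theorem satOfSolvB_p (c δ : ℝ) (x : ℕ → ℝ) (i : ℕ) :
    S.satOfSolvB c δ x (S.p i) = 1 / 32 + δ * x i / 2 := by
  unfold satOfSolvB p
  rw [if_neg (by omega), if_neg (by omega), if_neg (by omega)]
  have : (6 * S.M + 3 + 2 * i - (6 * S.M + 2)) / 2 = i := by omega
  rw [this]

theorem satOfSolvE_zero (c δ η : ℝ) (x : ℕ → ℝ) (e r : ℕ) (hr : r < 6) :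
    S.satOfSolvE c δ η x e (3 * r) = 1 - S.satOfSolvY c δ x e r := by
  have h1 : 3 * r / 3 = r := by omega
  have h2 : 3 * r % 3 = 0 := by omega
  have h3 : 3 * r < 18 := by omega
  unfold satOfSolvE
  rw [if_pos h3, if_pos h2, h1]

theorem satOfSolvE_one (c δ η : ℝ) (x : ℕ → ℝ) (e r : ℕ) (hr : r < 6) :
    S.satOfSolvE c δ η x e (3 * r + 1) = S.satOfSolvY c δ x e r := by
  have h1 : (3 * r + 1) / 3 = r := by omega
  have h2 : (3 * r + 1) % 3 = 1 := by omega
  have h2' : ¬ (3 * r + 1) % 3 = 0 := by omega
  have h3 : 3 * r + 1 < 18 := by omega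
  unfold satOfSolvE
  rw [if_pos h3, if_neg h2', if_pos h2, h1]

theorem satOfSolvE_two (c δ η : ℝ) (x : ℕ → ℝ) (e r : ℕ) (hr : r < 6) :
    S.satOfSolvE c δ η x e (3 * r + 2) = S.satOfSolvT c δ x e r := by
  have h1 : (3 * r + 2) / 3 = r := by omega
  have h2 : ¬ (3 * r + 2) % 3 = 1 := by omega
  have h2' : ¬ (3 * r + 2) % 3 = 0 := by omega
  have h3 : 3 * r + 2 < 18 := by omega
  unfold satOfSolvE
  rw [if_pos h3, if_neg h2', if_neg h2, h1]

theorem satOfSolv_eA_zero (e r c : ℕ) (hr : r < 6) : S.eA e (3 * r) c = S.fY e r := by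
  have h1 : 3 * r / 3 = r := by omega
  have h2 : 3 * r % 3 = 0 := by omega
  have h3 : 3 * r < 18 := by omega
  unfold eA
  rw [if_pos h3, if_pos h2, h1]

theorem satOfSolv_eA_one (e r c : ℕ) (hr : r < 6) : S.eA e (3 * r + 1) c = c + 3 * r := by
  have h2 : (3 * r + 1) % 3 = 1 := by omega
  have h2' : ¬ (3 * r + 1) % 3 = 0 := by omega
  have h3 : 3 * r + 1 < 18 := by omega
  unfold eA
  rw [if_pos h3, if_neg h2', if_pos h2]
  omega

theorem satOfSolv_eA_two (e r c : ℕ) (hr : r < 6) :
    S.eA e (3 * r + 2) c = if S.ty e = 0 then c + 3 * r else S.fX e r := by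
  have h1 : (3 * r + 2) / 3 = r := by omega
  have h2 : ¬ (3 * r + 2) % 3 = 1 := by omega
  have h2' : ¬ (3 * r + 2) % 3 = 0 := by omega
  have h3 : 3 * r + 2 < 18 := by omega
  have h4 : c + (3 * r + 2) - 2 = c + 3 * r := by omega
  unfold eA
  rw [if_pos h3, if_neg h2', if_neg h2, h1, h4]

theorem sat_of_solv (hS : S.WF) (h : S.Solv) : S.slp.Sat := by
  obtain ⟨x, hx0, hx⟩ := h
  -- a bound for the solution
  obtain ⟨B, hB1, hB⟩ : ∃ B : ℝ, 1 ≤ B ∧ ∀ i < S.nv, |x i| ≤ B := by
    refine ⟨1 + ∑ i ∈ Finset.range S.nv, |x i|, ?_, fun i hi => ?_⟩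
    · have : 0 ≤ ∑ i ∈ Finset.range S.nv, |x i| := Finset.sum_nonneg fun _ _ => abs_nonneg _
      linarith
    · have := Finset.single_le_sum (f := fun i => |x i|) (fun _ _ => abs_nonneg _)
        (Finset.mem_range.2 hi)
      have h2 : |x i| ≤ ∑ j ∈ Finset.range S.nv, |x j| := this
      linarith
  set c : ℝ := 1 / (64 * B) with hc
  have hB0 : 0 < B := by linarith
  have hc0 : 0 < c := by positivity
  have hcB : c * B = 1 / 64 := by rw [hc]; field_simp
  have hc64 : c ≤ 1 / 64 := by nlinarith
  have hc1 : c ≤ 1 := by linarith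
  set δ : ℝ := c ^ (2 ^ S.M) with hδ
  set η : ℝ := c ^ (2 ^ (2 * S.M)) with hη
  have hpow : ∀ t : ℕ, 0 < c ^ (2 ^ t) ∧ c ^ (2 ^ t) ≤ 1 / 64 := by
    intro t
    refine ⟨by positivity, ?_⟩
    have : c ^ (2 ^ t) ≤ c ^ 1 := pow_le_pow_of_le_one hc0.le hc1 (Nat.one_le_two_pow)
    rw [pow_one] at this
    linarith
  have hδ0 : 0 < δ := (hpow _).1
  have hδ1 : δ ≤ 1 / 64 := (hpow _).2
  have hη0 : 0 < η := (hpow _).1
  have hη1 : η ≤ 1 / 64 := (hpow _).2
  have hδc : δ ≤ c := by
    have : c ^ (2 ^ S.M) ≤ c ^ 1 := pow_le_pow_of_le_one hc0.le hc1 (Nat.one_le_two_pow)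
    rwa [pow_one] at this
  have hδx : ∀ i < S.nv, -(1 / 64) ≤ δ * x i ∧ δ * x i ≤ 1 / 64 := by
    intro i hi
    have h1 : |δ * x i| ≤ 1 / 64 := by
      rw [abs_mul, abs_of_pos hδ0, ← hcB]
      exact mul_le_mul hδc (hB i hi) (abs_nonneg _) hc0.le
    exact abs_le.1 h1
  have hbq : ∀ i < S.nv, 1 / 64 ≤ S.satOfSolvB c δ x (S.q i) ∧
      S.satOfSolvB c δ x (S.q i) ≤ 3 / 64 := by
    intro i hi
    rw [satOfSolvB_q]
    have := hδx i hi
    constructor <;> linarith
  have hbp : ∀ i < S.nv, 1 / 64 ≤ S.satOfSolvB c δ x (S.p i) ∧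
      S.satOfSolvB c δ x (S.p i) ≤ 3 / 64 := by
    intro i hi
    rw [satOfSolvB_p]
    have := hδx i hi
    constructor <;> linarith
  have hE0 : S.E0 = 6 * S.M + 2 + 2 * S.nv := rfl
  refine ⟨S.satOfSolvV c δ η x, fun l hl => ?_⟩
  have hl' : l < S.E0 + 28 * S.ne := hl
  show 0 < S.satOfSolvV c δ η x l ∧ S.satOfSolvV c δ η x l < 1 ∧
    (S.sOp l = 1 → S.satOfSolvV c δ η x l = 1 - S.satOfSolvV c δ η x (S.sA l)) ∧
    (S.sOp l = 2 → S.satOfSolvV c δ η x l = S.satOfSolvV c δ η x (S.sA l) +
      S.satOfSolvV c δ η x (S.sB l)) ∧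
    (S.sOp l = 3 → S.satOfSolvV c δ η x l = S.satOfSolvV c δ η x (S.sA l) *
      S.satOfSolvV c δ η x (S.sB l))
  have hpos := hS.pos
  rcases Nat.lt_or_ge l S.E0 with hlE | hlE
  · -- base lines
    rw [S.satOfSolvV_base c δ η x l hlE]
    by_cases h1 : l ≤ 6 * S.M
    · by_cases h0 : l = 0
      · subst h0
        have hv : S.satOfSolvB c δ x 0 = c := by
          have := S.satOfSolvB_three c δ x 0 (by omega)
          simpa using this
        rw [hv]
        refine ⟨hc0, by linarith, ?_, ?_, ?_⟩ <;> intro h <;> simp [sOp] at h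
      · have e1 : S.sOp l = if l % 3 = 0 then 3 else 1 := by
          unfold sOp; rw [if_neg h0, if_pos h1]
        have e2 : S.sA l = if l % 3 = 0 then l - 3 else l - 1 := by
          unfold sA; rw [if_neg h0, if_pos h1]
        have e3 : S.sB l = if l % 3 = 0 then l - 1 else 0 := by
          unfold sB; rw [if_neg h0, if_pos h1]
        have hval : ∀ l', l' ≤ 6 * S.M → S.satOfSolvV c δ η x l' =
            if l' % 3 = 1 then 1 - c ^ (2 ^ (l' / 3)) else c ^ (2 ^ (l' / 3)) := by
          intro l' hl'
          rw [S.satOfSolvV_base c δ η x l' (by omega)]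
          unfold satOfSolvB
          rw [if_pos hl']
        have hvl : S.satOfSolvB c δ x l =
            if l % 3 = 1 then 1 - c ^ (2 ^ (l / 3)) else c ^ (2 ^ (l / 3)) := by
          unfold satOfSolvB
          rw [if_pos h1]
        have hp := hpow (l / 3)
        obtain hm | hm | hm : l % 3 = 0 ∨ l % 3 = 1 ∨ l % 3 = 2 := by omega
        · rw [e1, e2, e3, if_pos hm, if_pos hm, if_pos hm, hval (l - 3) (by omega),
            hval (l - 1) (by omega), hvl, if_neg (by omega), if_neg (by omega), if_neg (by omega)]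
          have d1 : (l - 3) / 3 = l / 3 - 1 := by omega
          have d2 : (l - 1) / 3 = l / 3 - 1 := by omega
          have d3 : 1 ≤ l / 3 := by omega
          rw [d1, d2]
          refine ⟨hp.1, by linarith [hp.2], fun h => absurd h (by norm_num), fun h => absurd h (by norm_num), fun _ => ?_⟩
          obtain ⟨k, hk⟩ : ∃ k, l / 3 = k + 1 := ⟨l / 3 - 1, by omega⟩
          have hk2 : (2 : ℕ) ^ (k + 1) = 2 ^ k + 2 ^ k := by ring
          rw [hk, Nat.add_sub_cancel, hk2, pow_add]
        · rw [e1, e2, e3, if_neg (by omega), if_neg (by omega), if_neg (by omega),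
            hval (l - 1) (by omega), hvl, if_pos hm, if_neg (by omega)]
          have d2 : (l - 1) / 3 = l / 3 := by omega
          rw [d2]
          exact ⟨by linarith [hp.2], by linarith [hp.1], fun _ => rfl, fun h => absurd h (by norm_num), fun h => absurd h (by norm_num)⟩
        · rw [e1, e2, e3, if_neg (by omega), if_neg (by omega), if_neg (by omega),
            hval (l - 1) (by omega), hvl, if_neg (by omega), if_pos (by omega)]
          have d2 : (l - 1) / 3 = l / 3 := by omega
          rw [d2]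
          exact ⟨hp.1, by linarith [hp.2], fun _ => by ring, fun h => absurd h (by norm_num), fun h => absurd h (by norm_num)⟩
    · by_cases h2 : l = 6 * S.M + 1
      · have e1 : S.sOp l = 2 := by
          unfold sOp; rw [if_neg (by omega), if_neg h1, if_pos h2]
        have e2 : S.sA l = 0 := by
          unfold sA; rw [if_neg (by omega), if_neg h1, if_pos h2]
        have e3 : S.sB l = 2 := by
          unfold sB; rw [if_neg (by omega), if_neg h1, if_pos h2]
        have hvl : S.satOfSolvB c δ x l = c + c := by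
          unfold satOfSolvB
          rw [if_neg h1, if_pos h2]
        have hM : 20 ≤ S.M := by unfold M; omega
        have v0 : S.satOfSolvV c δ η x 0 = c := by
          rw [S.satOfSolvV_base c δ η x 0 (by omega)]
          have := S.satOfSolvB_three c δ x 0 (by omega)
          simpa using this
        have v2 : S.satOfSolvV c δ η x 2 = c := by
          rw [S.satOfSolvV_base c δ η x 2 (by omega)]
          unfold satOfSolvB
          rw [if_pos (by omega), if_neg (by omega)]
          simp
        rw [e1, e2, e3, hvl, v0, v2]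
        exact ⟨by linarith, by linarith, fun h => absurd h (by norm_num), fun _ => rfl, fun h => absurd h (by norm_num)⟩
      · obtain ⟨i, hi, hli⟩ : ∃ i < S.nv, l = S.q i ∨ l = S.p i := by
          refine ⟨(l - (6 * S.M + 2)) / 2, by omega, ?_⟩
          unfold q p
          omega
        have e1 : S.sOp l = if l = 6 * S.M + 3 then 2 else 0 := by
          unfold sOp; rw [if_neg (by omega), if_neg h1, if_neg h2, if_pos hlE]
        have e2 : S.sA l = if l = 6 * S.M + 3 then 6 * S.M + 2 else 0 := by
          unfold sA; rw [if_neg (by omega), if_neg h1, if_neg h2, if_pos hlE]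
        have e3 : S.sB l = if l = 6 * S.M + 3 then 3 * S.M else 0 := by
          unfold sB; rw [if_neg (by omega), if_neg h1, if_neg h2, if_pos hlE]
        have hb : 1 / 64 ≤ S.satOfSolvB c δ x l ∧ S.satOfSolvB c δ x l ≤ 3 / 64 := by
          rcases hli with rfl | rfl
          · exact hbq i hi
          · exact hbp i hi
        refine ⟨by linarith [hb.1], by linarith [hb.2], ?_, ?_, ?_⟩
        · intro h
          rw [e1] at h
          split_ifs at h
          all_goals omega
        · intro h
          rw [e1] at h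
          split_ifs at h with h3
          rw [e2, e3, if_pos h3, if_pos h3]
          have a1 : S.satOfSolvV c δ η x (6 * S.M + 2) = 1 / 32 - δ * x 0 / 2 := by
            rw [S.satOfSolvV_base c δ η x _ (by omega)]
            exact S.satOfSolvB_q c δ x 0
          have a2 : S.satOfSolvV c δ η x (3 * S.M) = δ := by
            rw [S.satOfSolvV_base c δ η x _ (by omega)]
            exact S.satOfSolvB_three c δ x S.M (by omega)
          have a3 : S.satOfSolvB c δ x l = 1 / 32 + δ * x 0 / 2 := by
            rw [h3]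
            exact S.satOfSolvB_p c δ x 0
          rw [a1, a2, a3, hx0]
          ring
        · intro h
          rw [e1] at h
          split_ifs at h
          all_goals omega
  · -- lines of equations
    obtain ⟨e, o, ho, he, rfl⟩ : ∃ e o, o < 28 ∧ e < S.ne ∧ l = S.E0 + 28 * e + o :=
      ⟨(l - S.E0) / 28, (l - S.E0) % 28, by omega, by omega, by omega⟩
    have d1 : S.E0 + 28 * e + o - S.E0 = 28 * e + o := by omega
    have d2 : (28 * e + o) / 28 = e := by omega
    have d3 : (28 * e + o) % 28 = o := by omega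
    have d4 : S.E0 + 28 * e + o - o = S.E0 + 28 * e := by omega
    have e1 : S.sOp (S.E0 + 28 * e + o) = S.eOp e o := by
      unfold sOp
      rw [if_neg (by omega), if_neg (by omega), if_neg (by omega), if_neg (by omega), d1, d2, d3]
    have e2 : S.sA (S.E0 + 28 * e + o) = S.eA e o (S.E0 + 28 * e) := by
      unfold sA
      rw [if_neg (by omega), if_neg (by omega), if_neg (by omega), if_neg (by omega), d1, d2, d3,
        d4]
    have e3 : S.sB (S.E0 + 28 * e + o) = S.eB o (S.E0 + 28 * e) := by
      unfold sB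
      rw [if_neg (by omega), if_neg (by omega), if_neg (by omega), if_neg (by omega), d1, d3, d4]
    rw [e1, e2, e3, S.satOfSolvV_eq c δ η x e o ho]
    have hi := hS.i e he
    have hj := hS.j e he
    have hk := hS.k e he
    have hvE : ∀ o', o' < 28 → S.satOfSolvV c δ η x (S.E0 + 28 * e + o') =
      S.satOfSolvE c δ η x e o' := fun o' ho' => S.satOfSolvV_eq c δ η x e o' ho'
    have hv6 : S.satOfSolvV c δ η x (6 * S.M) = η := by
      rw [S.satOfSolvV_base c δ η x _ (by omega)]
      have := S.satOfSolvB_three c δ x (2 * S.M) le_rfl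
      have h6 : 3 * (2 * S.M) = 6 * S.M := by ring
      rw [h6] at this
      exact this
    have hY : ∀ r, 1 / 64 ≤ S.satOfSolvY c δ x e r ∧ S.satOfSolvY c δ x e r ≤ 3 / 64 := by
      intro r
      unfold satOfSolvY fY
      split_ifs
      all_goals first
        | exact hbq _ hi
        | exact hbq _ hj
        | exact hbq _ hk
        | exact hbp _ hi
        | exact hbp _ hj
        | exact hbp _ hk
    have hX : ∀ r, 0 < S.satOfSolvB c δ x (S.fX e r) ∧ S.satOfSolvB c δ x (S.fX e r) ≤ 1 := by
      intro r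
      have h3M : S.satOfSolvB c δ x (3 * S.M) = δ := S.satOfSolvB_three c δ x S.M (by omega)
      have a1 := hbp _ hi
      have a2 := hbq _ hi
      unfold fX
      split_ifs
      all_goals first
        | (rw [h3M]; constructor <;> linarith)
        | (constructor <;> linarith)
    have hT : ∀ r, 0 < S.satOfSolvT c δ x e r ∧ S.satOfSolvT c δ x e r ≤ 3 / 64 := by
      intro r
      have a1 := hY r
      have a2 := hX r
      unfold satOfSolvT
      split_ifs
      · constructor <;> linarith
      · constructor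
        · exact mul_pos a2.1 (by linarith)
        · nlinarith
    have hYb : ∀ r, S.fY e r < S.E0 := by
      intro r
      unfold fY q p
      rw [hE0]
      split_ifs <;> omega
    have hXb : ∀ r, S.fX e r < S.E0 := by
      intro r
      unfold fX q p
      rw [hE0]
      split_ifs <;> omega
    -- the two sides agree
    have hST : S.satOfSolvT c δ x e 0 + S.satOfSolvT c δ x e 1 + S.satOfSolvT c δ x e 2 =
        S.satOfSolvT c δ x e 3 + S.satOfSolvT c δ x e 4 + S.satOfSolvT c δ x e 5 := by
      have hr := hx e he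
      have h3M : S.satOfSolvB c δ x (3 * S.M) = δ := S.satOfSolvB_three c δ x S.M (by omega)
      unfold res at hr
      unfold satOfSolvT satOfSolvY fY fX
      by_cases ht : S.ty e = 0
      · rw [if_pos ht] at hr
        simp only [ht, if_true]
        norm_num [satOfSolvB_p, satOfSolvB_q]
        linear_combination δ * hr
      · rw [if_neg ht] at hr
        simp only [ht, if_false]
        norm_num [satOfSolvB_p, satOfSolvB_q, h3M]
        linear_combination δ ^ 2 * hr
    have t0 := hT 0
    have t1 := hT 1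
    have t2 := hT 2
    have t3 := hT 3
    have t4 := hT 4
    have t5 := hT 5
    rcases Nat.lt_or_ge o 18 with ho1 | ho1
    · -- terms
      obtain ⟨r, s, hr, hs, rfl⟩ : ∃ r s, r < 6 ∧ s < 3 ∧ o = 3 * r + s :=
        ⟨o / 3, o % 3, by omega, by omega, by omega⟩
      have g0 := S.satOfSolvE_zero c δ η x e r hr
      have g1 := S.satOfSolvE_one c δ η x e r hr
      have g2 := S.satOfSolvE_two c δ η x e r hr
      have a1 := hY r
      have a2 := hT r
      interval_cases s
      · rw [add_zero, g0]
        have o1 : S.eOp e (3 * r) = 1 := by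
          unfold eOp; rw [if_pos (by omega), if_pos (by omega)]
        have o2 := S.satOfSolv_eA_zero e r (S.E0 + 28 * e) hr
        rw [o1, o2, S.satOfSolvV_base c δ η x _ (hYb r)]
        exact ⟨by linarith, by linarith, fun _ => rfl, fun h => absurd h (by norm_num), fun h => absurd h (by norm_num)⟩
      · rw [g1]
        have o1 : S.eOp e (3 * r + 1) = 1 := by
          unfold eOp; rw [if_pos (by omega), if_pos (by omega)]
        have o2 := S.satOfSolv_eA_one e r (S.E0 + 28 * e) hr
        rw [o1, o2, hvE _ (by omega), g0]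
        exact ⟨by linarith, by linarith, fun _ => by ring, fun h => absurd h (by norm_num), fun h => absurd h (by norm_num)⟩
      · rw [g2]
        by_cases ht : S.ty e = 0
        · have o1 : S.eOp e (3 * r + 2) = 1 := by
            unfold eOp; rw [if_pos (by omega), if_neg (by omega), if_pos ht]
          have o2 := S.satOfSolv_eA_two e r (S.E0 + 28 * e) hr
          rw [if_pos ht] at o2
          rw [o1, o2, hvE _ (by omega), g0]
          refine ⟨by linarith, by linarith, fun _ => ?_, fun h => absurd h (by norm_num), fun h => absurd h (by norm_num)⟩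
          unfold satOfSolvT
          rw [if_pos ht]
          ring
        · have o1 : S.eOp e (3 * r + 2) = 3 := by
            unfold eOp; rw [if_pos (by omega), if_neg (by omega), if_neg ht]
          have o2 := S.satOfSolv_eA_two e r (S.E0 + 28 * e) hr
          rw [if_neg ht] at o2
          have o3 : S.eB (3 * r + 2) (S.E0 + 28 * e) = S.E0 + 28 * e + (3 * r + 1) := by
            unfold eB; rw [if_pos (by omega)]
            omega
          rw [o1, o2, o3, hvE _ (by omega), g1, S.satOfSolvV_base c δ η x _ (hXb r)]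
          refine ⟨by linarith, by linarith, fun h => absurd h (by norm_num), fun h => absurd h (by norm_num), fun _ => ?_⟩
          unfold satOfSolvT
          rw [if_neg ht]
    · have g2 : ∀ r < 6, S.satOfSolvE c δ η x e (3 * r + 2) = S.satOfSolvT c δ x e r :=
        fun r hr => S.satOfSolvE_two c δ η x e r hr
      have k2 := g2 0 (by omega)
      have k5 := g2 1 (by omega)
      have k8 := g2 2 (by omega)
      have k11 := g2 3 (by omega)
      have k14 := g2 4 (by omega)
      have k17 := g2 5 (by omega)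
      norm_num at k2 k5 k8 k11 k14 k17
      have m2 := hvE 2 (by omega)
      have m5 := hvE 5 (by omega)
      have m8 := hvE 8 (by omega)
      have m11 := hvE 11 (by omega)
      have m14 := hvE 14 (by omega)
      have m17 := hvE 17 (by omega)
      rw [k2] at m2
      rw [k5] at m5
      rw [k8] at m8
      rw [k11] at m11
      rw [k14] at m14
      rw [k17] at m17
      have m18 := hvE 18 (by omega)
      have m19 := hvE 19 (by omega)
      have m20 := hvE 20 (by omega)
      have m21 := hvE 21 (by omega)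
      have m22 := hvE 22 (by omega)
      have m23 := hvE 23 (by omega)
      have m25 := hvE 25 (by omega)
      have m26 := hvE 26 (by omega)
      norm_num [satOfSolvE] at m18 m19 m20 m21 m22 m23 m25 m26
      interval_cases o <;>
      · norm_num [eOp, eA, eB, satOfSolvE, m2, m5, m8, m11, m14, m17, m18, m19, m20, m21, m22,
          m23, m25, m26, hv6]
        try constructor
        all_goals linarith

end BSYS

end Pool.Agent.Lib.MP_79a9b1_lc
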