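import Pool.Agent.Lib.MP_79a9b1_lc.Statement
import Pool.Agent.Lib.MP_79a9b1_lc.Mg.G001
import Pool.Agent.Lib.MP_79a9b1_lc.Mg.G002
import Pool.Agent.Lib.MP_79a9b1_lc.Mg.G003
import Pool.Agent.Lib.MP_79a9b1_lc.Mg.G006
import Pool.Agent.Lib.MP_79a9b1_lc.SatOfSolv

set_option autoImplicit false

/-!
# The program computes the reduction
-/

namespace Pool.Agent.Lib.MP_79a9b1_lc

open Pool.Agent.Lib.MP_711ea9_lc (Expr Cmd Store Bdd)
open Pool.Agent.Lib.MP_711ea9_lc.Cmd (exec_seq)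

theorem rawOf_input (I : ETR) : rawOf I.input = I.raw := by
  simp [rawOf, ETR.input, ETR.raw]

/-- The graph on numbers. -/
theorem outputs_of_slp (P : SLP) (hW : P.WF) (h3 : P.Op3) (σ : Store)
    (h0 : σ.var 0 = 53 * P.n + 7) (h1 : σ.var 1 = 41 * P.n + 4)
    (h2 : ∀ t < (53 * P.n + 7) * (53 * P.n + 7),
      σ.arr 0 t = P.aN (t / (53 * P.n + 7)) (t % (53 * P.n + 7))) :
    ∃ G : SimpleGraph (Fin (53 * P.n + 7)),
      Outputs σ (53 * P.n + 7) (41 * P.n + 4) G ∧ (P.Sat ↔ 41 * P.n + 4 ≤ mu G) := by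
  classical
  obtain ⟨e, he⟩ := flatV_equiv P.n
  have hadj : ∀ u v : Fin (53 * P.n + 7),
      (P.net.graph.Adj (e.symm u) (e.symm v) → P.aN u v = 1) ∧
      (¬ P.net.graph.Adj (e.symm u) (e.symm v) → P.aN u v = 0) := by
    intro u v
    have hu : ((u : Fin (53 * P.n + 7)) : ℕ) = flatV P.n (e.symm u) := by
      rw [← he, Equiv.apply_symm_apply]
    have hv : ((v : Fin (53 * P.n + 7)) : ℕ) = flatV P.n (e.symm v) := by
      rw [← he, Equiv.apply_symm_apply]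
    rw [hu, hv]
    exact ⟨P.aN_of_adj hW h3 _ _, P.aN_of_not_adj hW h3 _ _⟩
  refine ⟨⟨fun u v => P.net.graph.Adj (e.symm u) (e.symm v),
    ⟨fun u v h => P.net.graph.symm.symm _ _ h⟩,
    ⟨fun u h => P.net.graph.loopless.irrefl _ h⟩⟩, ⟨h0, h1, ?_⟩, ?_⟩
  · intro u v
    have hN : 0 < 53 * P.n + 7 := by omega
    have e1 : ((u : ℕ) * (53 * P.n + 7) + v) / (53 * P.n + 7) = u := by
      rw [add_comm, Nat.add_mul_div_right _ _ hN, Nat.div_eq_of_lt v.isLt, zero_add]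
    have e2 : ((u : ℕ) * (53 * P.n + 7) + v) % (53 * P.n + 7) = v := by
      rw [add_comm, Nat.add_mul_mod_self_right, Nat.mod_eq_of_lt v.isLt]
    have e3 : (u : ℕ) * (53 * P.n + 7) + v < (53 * P.n + 7) * (53 * P.n + 7) := by
      have h4 : ((u : ℕ) + 1) * (53 * P.n + 7) ≤ (53 * P.n + 7) * (53 * P.n + 7) :=
        Nat.mul_le_mul_right _ u.isLt
      have h5 := v.isLt
      have h6 : ((u : ℕ) + 1) * (53 * P.n + 7) = u * (53 * P.n + 7) + (53 * P.n + 7) := by ring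
      omega
    rw [h2 _ e3, e1, e2]
    exact hadj u v
  · rw [← P.mu_iff hW]
    have h4 : mu (V := Fin (53 * P.n + 7)) ⟨fun u v => P.net.graph.Adj (e.symm u) (e.symm v),
        ⟨fun u v h => P.net.graph.symm.symm _ _ h⟩,
        ⟨fun u h => P.net.graph.loopless.irrefl _ h⟩⟩ = mu P.net.graph :=
      mu_congr e.symm _ _ (fun u v => Iff.rfl)
    rw [h4]

/-- The program computes the reduction. -/
theorem prog_out (I : ETR) (hI : I.WF) :
    ∃ (N k : ℕ) (G : SimpleGraph (Fin N)), N ≤ 20000 * (I.size + 1) ∧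
      Outputs (prog.exec I.input) N k G ∧ (I.Holds ↔ k ≤ mu G) := by
  have hR : I.raw.WF := I.raw_wf hI
  set S : BSYS := I.raw.bsys with hS
  have hSW : S.WF := I.raw.bsys_wf hR
  -- the first stage
  obtain ⟨a1, a2, a3, a4, a5, a6, a7, a8, a9, a10⟩ := pInit_spec I.input
  rw [rawOf_input, ← hS] at a4 a5 a6 a7 a8 a9 a10
  have hprog : prog.exec I.input = pC.exec (pB.exec (pA.exec (pInit.exec I.input))) := by
    rw [prog, exec_seq, exec_seq, exec_seq]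
  rw [hprog]
  clear hprog
  generalize hσ1 : pInit.exec I.input = σ1 at *
  have hraw1 : rawOf σ1 = I.raw := by
    rw [← rawOf_input]
    simp only [rawOf, a1, a2, a3]
  -- the second stage
  obtain ⟨b1, b2, b3, b4, b5⟩ := pA_spec σ1
  rw [hraw1, a5] at b2 b3 b4 b5
  generalize hσ2 : pA.exec σ1 = σ2 at *
  set T : BSYS := bsysOf σ2 with hT
  have hTv : T.nv = S.nv := by rw [hT]; simp only [bsysOf]; rw [b1 4 (by norm_num), a4]
  have hTe : T.ne = S.ne := by rw [hT]; simp only [bsysOf]; rw [b1 5 (by norm_num), a5]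
  have hTM : T.M = S.M := by simp only [BSYS.M, hTv, hTe]
  have hTE : T.E0 = S.E0 := by simp only [BSYS.E0, hTv, hTM]
  have hTn : T.slp.n = S.slp.n := by simp only [BSYS.slp, hTE, hTe]
  have c1 : ∀ e < S.ne, S.ty e = T.ty e := fun e he => (b2 e he).symm
  have c2 : ∀ e < S.ne, S.i e = T.i e := fun e he => (b3 e he).symm
  have c3 : ∀ e < S.ne, S.j e = T.j e := fun e he => (b4 e he).symm
  have c4 : ∀ e < S.ne, S.k e = T.k e := fun e he => (b5 e he).symm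
  have hTW : T.WF := BSYS.wf_congr S T hTv.symm hTe.symm c2 c3 c4 hSW
  have hST : S.Solv ↔ T.Solv :=
    ⟨BSYS.solv_congr S T hTe.symm c1 c2 c3 c4,
      BSYS.solv_congr T S hTe (fun e he => (c1 e (hTe ▸ he)).symm)
        (fun e he => (c2 e (hTe ▸ he)).symm) (fun e he => (c3 e (hTe ▸ he)).symm)
        (fun e he => (c4 e (hTe ▸ he)).symm)⟩
  -- the third stage
  obtain ⟨d1, d2, d3, d4⟩ := pB_spec σ2
    (by rw [b1 6 (by norm_num), a6, ← hT, hTM]) (by rw [b1 7 (by norm_num), a7, ← hT, hTE])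
  have hn8 : σ2.var 8 = S.slp.n := by rw [b1 8 (by norm_num), a8]
  rw [← hT, hn8] at d2 d3 d4
  generalize hσ3 : pB.exec σ2 = σ3 at *
  set Q : SLP := slpOf σ3 with hQ
  have hQn : Q.n = S.slp.n := by
    rw [hQ]; simp only [slpOf]; rw [d1 8 (by norm_num), hn8]
  have e1 : ∀ k < T.slp.n, T.slp.op k = Q.op k := fun k hk => (d2 k (hTn ▸ hk)).symm
  have e2 : ∀ k < T.slp.n, T.slp.a k = Q.a k := fun k hk => (d3 k (hTn ▸ hk)).symm
  have e3 : ∀ k < T.slp.n, T.slp.b k = Q.b k := fun k hk => (d4 k (hTn ▸ hk)).symm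
  have hTQ : T.slp.n = Q.n := by rw [hTn, hQn]
  have hQW : Q.WF := SLP.wf_congr T.slp Q hTQ e1 e2 e3 (T.slp_wf hTW)
  have hQ3 : Q.Op3 := fun k hk => by
    rw [← e1 k (hTQ ▸ hk)]
    exact T.slp_op3 k (hTQ ▸ hk)
  have hsat : T.slp.Sat ↔ Q.Sat :=
    ⟨SLP.sat_congr T.slp Q hTQ e1 e2 e3,
      SLP.sat_congr Q T.slp hTQ.symm (fun k hk => (e1 k (hTQ ▸ hk)).symm)
        (fun k hk => (e2 k (hTQ ▸ hk)).symm) (fun k hk => (e3 k (hTQ ▸ hk)).symm)⟩
  -- the last stage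
  obtain ⟨f1, f2, f3⟩ := pC_spec σ3
  have h9 : σ3.var 9 = 53 * Q.n + 7 := by
    rw [d1 9 (by norm_num), b1 9 (by norm_num), a9, hQn]
  have h10 : σ3.var 10 = (53 * Q.n + 7) * (53 * Q.n + 7) := by
    rw [d1 10 (by norm_num), b1 10 (by norm_num), a10, hQn]
  have h8 : σ3.var 8 = Q.n := rfl
  rw [h9] at f1 f3
  rw [h10] at f3
  rw [h8] at f2
  obtain ⟨G, hG1, hG2⟩ := outputs_of_slp Q hQW hQ3 (pC.exec σ3) f1 f2 f3
  refine ⟨53 * Q.n + 7, 41 * Q.n + 4, G, ?_, hG1, ?_⟩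
  · rw [hQn]
    have g1 : S.slp.n = S.E0 + 28 * S.ne := rfl
    have g2 : S.E0 = 6 * S.M + 2 + 2 * S.nv := rfl
    have g3 : S.M = 3 * S.nv + S.ne + 20 := rfl
    have g4 : S.nv = 1 + I.raw.a + 8 * I.raw.b := rfl
    have g5 : S.ne = I.raw.a + 6 * I.raw.b + 1 := rfl
    have g6 : I.size = I.raw.a + I.raw.b := rfl
    omega
  · rw [← hG2, ← hsat, ← I.raw_holds hI]
    constructor
    · intro h
      exact T.sat_of_solv hTW (hST.1 (I.raw.solv_of_holds hR h))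
    · intro h
      exact I.raw.holds_of_solv hR (hST.2 (T.solv_of_sat hTW h))

end Pool.Agent.Lib.MP_79a9b1_lc
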